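import Mathlib
import Pool.Agent.H27.DelF

namespace Pool.Agent.Results.MP_dc1de5_nt.AllFour
open Finset Pool.Agent.H27.DelA Pool.Agent.H27.DelC Pool.Agent.H27.DelD Pool.Agent.H27.DelE
  Pool.Agent.H27.DelF

/-- The Apery polynomial `A_n` at a rational point. -/
def A (n : ℕ) (x : ℚ) : ℚ :=
  ∑ k ∈ Finset.range (n + 1), (n.choose k : ℚ) ^ 2 * ((n + k).choose k : ℚ) ^ 2 * x ^ k

/-- The polynomial `D_n` at a rational point. -/
def D (n : ℕ) (x : ℚ) : ℚ :=
  ∑ k ∈ Finset.range (n + 1), (n.choose k : ℚ) * ((n + k).choose k : ℚ) * x ^ k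

def s (n : ℕ) : ℚ :=
  1 / (n : ℚ) ^ 2 * ∑ k ∈ Finset.range n, (2 * (k : ℚ) + 1) * (-1) ^ k * A k (1 / 4)

def t (n : ℕ) : ℚ :=
  1 / (n : ℚ) ^ 2 * ∑ k ∈ Finset.range n, (2 * (k : ℚ) + 1) * (-1) ^ k * D k (-1 / 4) ^ 3

/-- `r` has denominator prime to `p` and `r` is congruent to `c` modulo `p ^ m` in the
localisation of the integers at `p`. -/
def Congr (p m : ℕ) (r : ℚ) (c : ℤ) : Prop :=
  ¬ p ∣ r.den ∧ (p : ℤ) ^ m ∣ (r - c).num

theorem A_eq0 (k M : ℕ) (h : k < M) (x : ℚ) :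
    A k x = ∑ i ∈ range M, (phi i k : ℚ) * phi i k * x ^ i := by
  unfold A
  rw [Finset.sum_subset (range_subset_range.mpr h)
    (fun i _ hi => by rw [Nat.choose_eq_zero_of_lt (show k < i by simpa using hi)]; simp)]
  refine Finset.sum_congr rfl fun i _ => ?_
  simp only [phi]; push_cast; ring

theorem A_eq (k M : ℕ) (h : k < M) (x : ℚ) :
    A k x = ∑ s ∈ range M, (phi s k : ℚ) * fr M x s := by
  rw [A_eq0 k M h]
  simp only [fr, Finset.mul_sum]
  rw [Finset.sum_comm]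
  refine Finset.sum_congr rfl fun i _ => ?_
  have := congrArg (Int.cast : ℤ → ℚ) (phi_mul k M h i i)
  push_cast at this
  rw [this, Finset.sum_mul]
  exact Finset.sum_congr rfl fun s _ => by ring

theorem s_eq (m : ℕ) : s (m + 1) = sQ (m + 1) (1 / 4 : ℚ) := by
  rw [s, Finset.sum_congr rfl fun k hk => by rw [A_eq k (m + 1) (mem_range.mp hk)], alt_expand,
    apery_closed m _ (by norm_num)]
  have : ((m : ℚ) + 1) ≠ 0 := by positivity
  push_cast
  field_simp

theorem s_VV (m : ℕ) : s (m + 1) * (((m + 1).factorial : ℚ)) ^ 2 = VV m := by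
  rw [s, Finset.sum_congr rfl fun k hk => by rw [A_eq0 k (m + 1) (mem_range.mp hk)], VV_eq,
    Nat.factorial_succ]
  have : ((m : ℚ) + 1) ≠ 0 := by positivity
  push_cast
  field_simp

theorem t_eq (m : ℕ) : t (m + 1) = tD m (-1 / 4 : ℚ) := by
  have e : ∀ k ∈ range (m + 1), D k (-1 / 4) = DD (m + 2) (-1 / 4 : ℚ) k := by
    intro k hk
    rw [DD_indep _ k _ (by have := mem_range.mp hk; omega), D, DD]
    refine Finset.sum_congr rfl fun i _ => ?_
    simp only [phi]; push_cast; ring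
  rw [t, Finset.sum_congr rfl fun k hk => by rw [e k hk], cube_closed (m + 2) _ (by norm_num) m
    (by omega), tD]
  have : ((m : ℚ) + 1) ≠ 0 := by positivity
  push_cast
  field_simp

theorem t_dl (m : ℕ) : t (m + 1) = 4 * (-1) ^ (m + 1) * dl (m + 1) * dl m * (dl (m + 1) - dl m) := by
  rw [t_eq, tD, DD_indep _ m _ (by omega)]; rfl

theorem t_eq2 (m : ℕ) : t (m + 1) = tE m (-1 / 4 : ℚ) := by
  rw [t_dl, dl_dE, dl_dE, tE]

open Polynomial in
theorem cong (F : ∀ (R : Type) [CommRing R], R → R)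
    (hF : ∀ (R S : Type) [CommRing R] [CommRing S] (f : R →+* S) (x : R), f (F R x) = F S (f x))
    (ε : ℤ) (r : ℚ) (hr : r = F ℚ (ε / 4)) :
    (∃ N, r.den ∣ 4 ^ N) ∧
    (∀ (q : ℕ) (x : ZMod q), Odd q → 4 * x = ε → (r.num : ZMod q) = r.den * F (ZMod q) x) ∧
    ∀ (p m q : ℕ) (x : ZMod q) (c : ℤ), q = p ^ m → p.Prime → Odd p → 4 * x = ε →
      F (ZMod q) x = c → Congr p m r c := by
  have ev : ∀ (S : Type) [CommRing S] (x : S),
      eval₂ (Int.castRingHom S) x (F ℤ[X] X) = F S x := by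
    intro S _ x
    rw [← coe_eval₂RingHom, hF]; simp
  have unit : ∀ q : ℕ, Odd q → IsUnit (4 : ZMod q) := by
    intro q hq
    have : Nat.Coprime 4 q := by
      rw [show 4 = 2 ^ 2 by norm_num]
      exact Nat.Coprime.pow_left _ (Nat.coprime_two_left.mpr hq)
    exact_mod_cast (ZMod.isUnit_iff_coprime 4 q).mpr this
  have T := transfer (F ℤ[X] X) ε r (by rw [ev, hr])
  refine ⟨T.1, fun q x hq hx => ?_, fun p m q x c hq hp ho hx hc => ⟨fun hd => ?_, ?_⟩⟩
  · rw [T.2 (ZMod q) x (unit q hq) hx, ev]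
  · obtain ⟨N, hN⟩ := T.1
    have h1 := hp.dvd_of_dvd_pow (hd.trans hN)
    rw [show 4 = 2 ^ 2 by norm_num] at h1
    have h2 := (Nat.prime_dvd_prime_iff_eq hp Nat.prime_two).mp (hp.dvd_of_dvd_pow h1)
    rw [h2] at ho
    exact absurd ho (by decide)
  · subst hq
    have T2 := (transfer (F ℤ[X] X - C c) ε (r - c)
      (by rw [eval₂_sub, ev, hr, eval₂_C, eq_intCast])).2
      (ZMod (p ^ m)) x (unit _ ho.pow) hx
    rw [eval₂_sub, ev, hc, eval₂_C, eq_intCast, sub_self, mul_zero,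
      ZMod.intCast_zmod_eq_zero_iff_dvd] at T2
    exact_mod_cast T2

theorem result :
    (∀ n : ℕ, 0 < n → (s n).den = 2 ^ (2 * padicValNat 2 n.factorial) ∧
      (t n).den = 2 ^ (3 * (n - 1 + padicValNat 2 n.factorial) - padicValNat 2 n)) ∧
    (∀ n : ℕ, 0 < n → (Odd n → (s n).num ≡ 1 [ZMOD 12]) ∧ (Even n → (s n).num ≡ 7 [ZMOD 12])) ∧
    (∀ p a : ℕ, p.Prime → Odd p → 0 < a → Congr p 1 (s (p ^ a)) 1 ∧ Congr p 1 (t (p ^ a)) 1) ∧
    (∀ a : ℕ, 0 < a → Congr 3 2 (s (3 ^ a)) 4 ∧ Congr 3 5 (t (3 ^ a)) (-8)) := by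
  have cs := fun m => cong (fun R _ x => sQ (m + 1) x) (fun R S _ _ f x => map_sQ f _ x) 1
    (s (m + 1)) (by rw [s_eq]; simp)
  have ct := fun m => cong (fun R _ x => tD m x) (fun R S _ _ f x => map_tD f _ x) (-1)
    (t (m + 1)) (by rw [t_eq]; simp)
  have ce := fun m => cong (fun R _ x => tE m x) (fun R S _ _ f x => map_tE f _ x) (-1)
    (t (m + 1)) (by rw [t_eq2]; simp)
  have hs : ∀ m, (s (m + 1)).den = 2 ^ (2 * padicValNat 2 (m + 1).factorial) ∧
      (s (m + 1)).num % 4 = VV m % 4 := by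
    intro m
    obtain ⟨N, hN⟩ := (cs m).1
    obtain ⟨u, hu, hf⟩ := fact_split (m + 1).factorial (Nat.factorial_ne_zero _)
    have hV : Odd (VV m) := by
      have := VV_mod m
      rw [Int.odd_iff]
      split_ifs at this <;> omega
    have hq := congrArg (Int.cast : ℤ → ℚ) hf
    have := den_eq _ N (2 * padicValNat 2 (m + 1).factorial) (u ^ 2) (VV m) hN hu.pow hV (by
      rw [← s_VV]
      simp only [Int.cast_natCast] at hq
      rw [hq]; push_cast; ring)
    refine ⟨this.1, ?_⟩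
    obtain ⟨v, rfl⟩ := hu
    rw [← this.2, show (s (m + 1)).num * (2 * v + 1) ^ 2
      = (s (m + 1)).num + 4 * ((s (m + 1)).num * (v ^ 2 + v)) by ring, Int.add_mul_emod_self_left]
  refine ⟨fun n hn => ?_, fun n hn => ?_, fun p a hp ho ha => ?_, fun a ha => ?_⟩
  · obtain ⟨m, rfl⟩ : ∃ m, n = m + 1 := ⟨n - 1, by omega⟩
    refine ⟨(hs m).1, ?_⟩
    obtain ⟨N, hN⟩ := (ct m).1
    obtain ⟨u, hu, hf⟩ := fact_split m.factorial (Nat.factorial_ne_zero _)
    obtain ⟨w, hw, hg⟩ := fact_split (m + 1) (by omega)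
    have hv : padicValNat 2 (m + 1).factorial
        = padicValNat 2 (m + 1) + padicValNat 2 m.factorial := by
      rw [Nat.factorial_succ, padicValNat.mul (by omega) (Nat.factorial_ne_zero _)]
    rw [hv]
    set e := padicValNat 2 (m + 1)
    set f := padicValNat 2 m.factorial
    rw [show 3 * (m + 1 - 1 + (e + f)) - e = 3 * m + 2 * e + 3 * f by omega]
    have hV : Odd ((-1) ^ (m + 1) * (aa (m + 1) * aa m * (aa (m + 1) - 2 * ((m + 1) * aa m)))) :=
      Odd.mul (Odd.pow (by decide)) (((aa_odd _).mul (aa_odd _)).mul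
        ((aa_odd _).sub_even (even_two_mul _)))
    refine (den_eq _ N _ (w ^ 2 * u ^ 3) _ hN (hw.pow.mul hu.pow) hV ?_).1
    have h1 := congrArg (Int.cast : ℤ → ℚ) hf
    have h2 := congrArg (Int.cast : ℤ → ℚ) hg
    have h3 : (m.factorial : ℚ) ≠ 0 := by positivity
    rw [t_dl, dl_aa, dl_aa, Nat.factorial_succ]
    push_cast at h1 h2 ⊢
    have h4 : (2 : ℚ) ^ (3 * m + 2 * e + 3 * f) * (w ^ 2 * u ^ 3)
        = 2 ^ (3 * m) * (m + 1) ^ 2 * (m.factorial : ℚ) ^ 3 := by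
      rw [h1, h2]; ring
    rw [h4]
    field_simp
    ring
  · obtain ⟨m, rfl⟩ : ∃ m, n = m + 1 := ⟨n - 1, by omega⟩
    have h3 := (cs m).2.1 3 1 (by decide) (by decide)
    rw [sQ_three, (hs m).1, pow_mul] at h3
    push_cast at h3
    rw [show (4 : ZMod 3) = 1 from rfl, one_pow, mul_one] at h3
    have h3' : (3 : ℤ) ∣ (s (m + 1)).num - 1 :=
      (ZMod.intCast_zmod_eq_zero_iff_dvd _ 3).mp (by push_cast; rw [h3, sub_self])
    have h4 := (hs m).2
    rw [VV_mod] at h4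
    unfold Int.ModEq
    constructor
    · intro h
      rw [if_pos (by rcases h with ⟨k, hk⟩; exact ⟨k, by omega⟩)] at h4
      omega
    · intro h
      rw [if_neg (by rintro ⟨k, hk⟩; rcases h with ⟨l, hl⟩; omega)] at h4
      omega
  · haveI : Fact p.Prime := ⟨hp⟩
    obtain ⟨h, hm⟩ : Odd (p ^ a) := ho.pow
    have h4 : (4 : ZMod p) ≠ 0 := by
      intro h0
      have : p ∣ 2 ^ 2 := (ZMod.natCast_eq_zero_iff 4 p).mp (by exact_mod_cast h0)
      have h2 := (Nat.prime_dvd_prime_iff_eq hp Nat.prime_two).mp (hp.dvd_of_dvd_pow this)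
      rw [h2] at ho
      exact absurd ho (by decide)
    constructor
    · have hx : 4 * (1 / 4 : ZMod p) = 1 := by field_simp
      have h1 := sQ_p p a h hm _ hx
      rw [hm] at h1 ⊢
      exact (cs (2 * h)).2.2 p 1 p _ 1 (by simp) hp ho (by simpa using hx) (by simpa using h1)
    · have hx : 4 * (-1 / 4 : ZMod p) = -1 := by field_simp
      have h1 : tD (2 * h) (-1 / 4 : ZMod p) = 1 := by
        obtain ⟨d1, d2⟩ := DD_p p a (2 * h) hm (-1 / 4 : ZMod p)
        rw [tD, d1, d2, pow_succ, pow_mul]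
        linear_combination (-(4 * (-1 / 4 : ZMod p) + 1)) * hx
      rw [hm]
      exact (ct (2 * h)).2.2 p 1 p _ 1 (by simp) hp ho (by simpa using hx) (by simpa using h1)
  · obtain ⟨m, hm⟩ : ∃ m, 3 ^ a = m + 1 := ⟨3 ^ a - 1, by
      have : 0 < 3 ^ a := by positivity
      omega⟩
    constructor
    · have h := sQ_nine a ha
      rw [hm] at h ⊢
      refine (cs m).2.2 3 2 9 (7 : ZMod 9) 4 (by norm_num) (by norm_num) (by decide) (by decide) ?_
      have h2 := (ZMod.intCast_zmod_eq_zero_iff_dvd _ 9).mpr h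
      have h3 := map_sQ (Int.castRingHom (ZMod 9)) (m + 1) 7
      simp only [eq_intCast] at h3
      rw [Int.cast_sub, h3, sub_eq_zero] at h2
      exact h2
    · rw [hm]
      refine (ce m).2.2 3 5 243 (182 : ZMod 243) (-8) (by norm_num) (by norm_num) (by decide) (by decide) ?_
      rcases le_or_gt a 3 with h | h
      · have := tE_small a ha h
        rw [hm] at this
        exact this
      · obtain ⟨b, rfl⟩ := Nat.exists_eq_add_of_le (show 4 ≤ a from h)
        exact tE_big b m hm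

end Pool.Agent.Results.MP_dc1de5_nt.AllFour
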